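import Pool.Agent.Lib.MP_dadc30_coR.V55.Tab

/-!
# Chunks of the computation, part 100 (generated)
-/

set_option autoImplicit false
set_option maxRecDepth 1000000

namespace Dadc30.V55

open Dadc30.Pk

theorem ck100 : chunk dat 20 262688 264450 = true := by decide +kernel

end Dadc30.V55
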