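import Pool.Agent.Lib.MP_dadc30_coR.V55.Tab
import Pool.Agent.Lib.MP_dadc30_coR.Pk.Top

/-!
# Check of the tables (generated)
-/

set_option autoImplicit false
set_option maxRecDepth 1000000

namespace Dadc30.V55

open Dadc30.Pk

theorem ok : Ok dat where
  hA := by decide +kernel
  hB := by decide +kernel
  hT := by decide +kernel
  hadj := by decide +kernel
  hβ := by decide +kernel
  hβ' := by decide +kernel
  hw := by decide +kernel
  hwa := by decide +kernel
  hchi := by decide +kernel
  hones := by decide +kernel
  hHH := by decide +kernel
  hacc := by decide +kernel
  hlits := by decide +kernel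
  hRA := by decide +kernel
  hRQ := by decide +kernel
  hV0 := by decide +kernel
  hD0 := by decide +kernel

end Dadc30.V55
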