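import Pool.Agent.Lib.MP_dadc30_coR.V55.C0
import Pool.Agent.Lib.MP_dadc30_coR.V55.C1
import Pool.Agent.Lib.MP_dadc30_coR.V55.C2
import Pool.Agent.Lib.MP_dadc30_coR.V55.C3
import Pool.Agent.Lib.MP_dadc30_coR.V55.C4
import Pool.Agent.Lib.MP_dadc30_coR.V55.C5
import Pool.Agent.Lib.MP_dadc30_coR.V55.C6
import Pool.Agent.Lib.MP_dadc30_coR.V55.C7
import Pool.Agent.Lib.MP_dadc30_coR.V55.C8
import Pool.Agent.Lib.MP_dadc30_coR.V55.C9
import Pool.Agent.Lib.MP_dadc30_coR.V55.C10
import Pool.Agent.Lib.MP_dadc30_coR.V55.C11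
import Pool.Agent.Lib.MP_dadc30_coR.V55.C12
import Pool.Agent.Lib.MP_dadc30_coR.V55.C13
import Pool.Agent.Lib.MP_dadc30_coR.V55.C14
import Pool.Agent.Lib.MP_dadc30_coR.V55.C15
import Pool.Agent.Lib.MP_dadc30_coR.V55.C16
import Pool.Agent.Lib.MP_dadc30_coR.V55.C17
import Pool.Agent.Lib.MP_dadc30_coR.V55.C18
import Pool.Agent.Lib.MP_dadc30_coR.V55.C19
import Pool.Agent.Lib.MP_dadc30_coR.V55.C20
import Pool.Agent.Lib.MP_dadc30_coR.V55.C21
import Pool.Agent.Lib.MP_dadc30_coR.V55.C22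
import Pool.Agent.Lib.MP_dadc30_coR.V55.C23
import Pool.Agent.Lib.MP_dadc30_coR.V55.C24
import Pool.Agent.Lib.MP_dadc30_coR.V55.C25
import Pool.Agent.Lib.MP_dadc30_coR.V55.C26
import Pool.Agent.Lib.MP_dadc30_coR.V55.C27
import Pool.Agent.Lib.MP_dadc30_coR.V55.C28
import Pool.Agent.Lib.MP_dadc30_coR.V55.C29
import Pool.Agent.Lib.MP_dadc30_coR.V55.C30
import Pool.Agent.Lib.MP_dadc30_coR.V55.C31
import Pool.Agent.Lib.MP_dadc30_coR.V55.C32
import Pool.Agent.Lib.MP_dadc30_coR.V55.C33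
import Pool.Agent.Lib.MP_dadc30_coR.V55.C34
import Pool.Agent.Lib.MP_dadc30_coR.V55.C35
import Pool.Agent.Lib.MP_dadc30_coR.V55.C36
import Pool.Agent.Lib.MP_dadc30_coR.V55.C37
import Pool.Agent.Lib.MP_dadc30_coR.V55.C38
import Pool.Agent.Lib.MP_dadc30_coR.V55.C39
import Pool.Agent.Lib.MP_dadc30_coR.V55.C40
import Pool.Agent.Lib.MP_dadc30_coR.V55.C41
import Pool.Agent.Lib.MP_dadc30_coR.V55.C42
import Pool.Agent.Lib.MP_dadc30_coR.V55.C43
import Pool.Agent.Lib.MP_dadc30_coR.V55.C44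
import Pool.Agent.Lib.MP_dadc30_coR.V55.C45
import Pool.Agent.Lib.MP_dadc30_coR.V55.C46
import Pool.Agent.Lib.MP_dadc30_coR.V55.C47
import Pool.Agent.Lib.MP_dadc30_coR.V55.C48
import Pool.Agent.Lib.MP_dadc30_coR.V55.C49
import Pool.Agent.Lib.MP_dadc30_coR.V55.C50
import Pool.Agent.Lib.MP_dadc30_coR.V55.C51
import Pool.Agent.Lib.MP_dadc30_coR.V55.C52
import Pool.Agent.Lib.MP_dadc30_coR.V55.C53
import Pool.Agent.Lib.MP_dadc30_coR.V55.C54
import Pool.Agent.Lib.MP_dadc30_coR.V55.C55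
import Pool.Agent.Lib.MP_dadc30_coR.V55.C56
import Pool.Agent.Lib.MP_dadc30_coR.V55.C57
import Pool.Agent.Lib.MP_dadc30_coR.V55.C58
import Pool.Agent.Lib.MP_dadc30_coR.V55.C59
import Pool.Agent.Lib.MP_dadc30_coR.V55.C60
import Pool.Agent.Lib.MP_dadc30_coR.V55.C61
import Pool.Agent.Lib.MP_dadc30_coR.V55.C62
import Pool.Agent.Lib.MP_dadc30_coR.V55.C63
import Pool.Agent.Lib.MP_dadc30_coR.V55.C64
import Pool.Agent.Lib.MP_dadc30_coR.V55.C65
import Pool.Agent.Lib.MP_dadc30_coR.V55.C66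
import Pool.Agent.Lib.MP_dadc30_coR.V55.C67
import Pool.Agent.Lib.MP_dadc30_coR.V55.C68
import Pool.Agent.Lib.MP_dadc30_coR.V55.C69
import Pool.Agent.Lib.MP_dadc30_coR.V55.C70
import Pool.Agent.Lib.MP_dadc30_coR.V55.C71
import Pool.Agent.Lib.MP_dadc30_coR.V55.C72
import Pool.Agent.Lib.MP_dadc30_coR.V55.C73
import Pool.Agent.Lib.MP_dadc30_coR.V55.C74
import Pool.Agent.Lib.MP_dadc30_coR.V55.C75
import Pool.Agent.Lib.MP_dadc30_coR.V55.C76
import Pool.Agent.Lib.MP_dadc30_coR.V55.C77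
import Pool.Agent.Lib.MP_dadc30_coR.V55.C78
import Pool.Agent.Lib.MP_dadc30_coR.V55.C79
import Pool.Agent.Lib.MP_dadc30_coR.V55.C80
import Pool.Agent.Lib.MP_dadc30_coR.V55.C81
import Pool.Agent.Lib.MP_dadc30_coR.V55.C82
import Pool.Agent.Lib.MP_dadc30_coR.V55.C83
import Pool.Agent.Lib.MP_dadc30_coR.V55.C84
import Pool.Agent.Lib.MP_dadc30_coR.V55.C85
import Pool.Agent.Lib.MP_dadc30_coR.V55.C86
import Pool.Agent.Lib.MP_dadc30_coR.V55.C87
import Pool.Agent.Lib.MP_dadc30_coR.V55.C88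
import Pool.Agent.Lib.MP_dadc30_coR.V55.C89
import Pool.Agent.Lib.MP_dadc30_coR.V55.C90
import Pool.Agent.Lib.MP_dadc30_coR.V55.C91
import Pool.Agent.Lib.MP_dadc30_coR.V55.C92
import Pool.Agent.Lib.MP_dadc30_coR.V55.C93
import Pool.Agent.Lib.MP_dadc30_coR.V55.C94
import Pool.Agent.Lib.MP_dadc30_coR.V55.C95
import Pool.Agent.Lib.MP_dadc30_coR.V55.C96
import Pool.Agent.Lib.MP_dadc30_coR.V55.C97
import Pool.Agent.Lib.MP_dadc30_coR.V55.C98
import Pool.Agent.Lib.MP_dadc30_coR.V55.C99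
import Pool.Agent.Lib.MP_dadc30_coR.V55.C100
import Pool.Agent.Lib.MP_dadc30_coR.V55.C101
import Pool.Agent.Lib.MP_dadc30_coR.V55.C102
import Pool.Agent.Lib.MP_dadc30_coR.V55.C103
import Pool.Agent.Lib.MP_dadc30_coR.V55.C104
import Pool.Agent.Lib.MP_dadc30_coR.V55.C105
import Pool.Agent.Lib.MP_dadc30_coR.V55.C106
import Pool.Agent.Lib.MP_dadc30_coR.V55.C107
import Pool.Agent.Lib.MP_dadc30_coR.V55.C108
import Pool.Agent.Lib.MP_dadc30_coR.V55.C109
import Pool.Agent.Lib.MP_dadc30_coR.V55.C110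
import Pool.Agent.Lib.MP_dadc30_coR.V55.C111
import Pool.Agent.Lib.MP_dadc30_coR.V55.C112
import Pool.Agent.Lib.MP_dadc30_coR.V55.C113
import Pool.Agent.Lib.MP_dadc30_coR.V55.C114
import Pool.Agent.Lib.MP_dadc30_coR.V55.C115
import Pool.Agent.Lib.MP_dadc30_coR.V55.C116
import Pool.Agent.Lib.MP_dadc30_coR.V55.C117
import Pool.Agent.Lib.MP_dadc30_coR.V55.C118
import Pool.Agent.Lib.MP_dadc30_coR.V55.C119
import Pool.Agent.Lib.MP_dadc30_coR.V55.Ini
import Pool.Agent.Lib.MP_dadc30_coR.V55.Lst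

/-!
# The inequality of the patch (generated)
-/

set_option autoImplicit false
set_option maxRecDepth 1000000

namespace Dadc30.V55

open Dadc30.Pk Dadc30.Rec

/-- ranges of the chunks -/
def rngs : List (ℕ × ℕ) := [(0, 8), (8, 32), (32, 65), (65, 84), (84, 130), (130, 256), (256, 324), (324, 529), (529, 578), (578, 1029), (1029, 1156), (1156, 1545), (1545, 2056), (2056, 2128), (2128, 2312), (2312, 2626), (2626, 4120), (4120, 4192), (4192, 4416), (4416, 8208), (8208, 8258), (8258, 8321), (8321, 8512), (8512, 8738), (8738, 9225), (9225, 9736), (9736, 10306), (10306, 10754), (10754, 12322), (12322, 12610), (12610, 16393), (16393, 16449), (16449, 16512), (16512, 16642), (16642, 16898), (16898, 16976), (16976, 17536), (17536, 17944), (17944, 18496), (18496, 18578), (18578, 19008), (19008, 20505), (20505, 20744), (20744, 32772), (32772, 32788), (32788, 32832), (32832, 32848), (32848, 32896), (32896, 32928), (32928, 33088), (33088, 33288), (33288,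 33344), (33344, 33792), (33792, 33826), (33826, 34056), (34056, 40962), (40962, 40994), (40994, 41042), (41042, 41120), (41120, 41473), (41473, 41552), (41552, 42112), (42112, 65536), (65536, 65557), (65557, 65604), (65604, 65666), (65666, 66565), (66565, 66692), (66692, 67648), (67648, 69634), (69634, 69760), (69760, 73760), (73760, 73856), (73856, 74786), (74786, 75856), (75856, 77969), (77969, 81945), (81945, 82052), (82052, 82968), (82968, 84032), (84032, 86033), (86033, 131077), (131077, 131170), (131170, 131593), (131593, 132357), (132357, 133442), (133442, 135425), (135425, 147716), (147716, 149000), (149000, 151617), (151617, 163880), (163880, 164105), (164105, 164448), (164448, 196610), (196610, 197640), (197640, 212994), (212994, 262144), (262144, 262176), (262176, 262400), (262400, 262688), (262688, 264450), (264450, 266274), (266274, 270345), (270345, 270856), (270856, 274441), (274441, 278544), (278544, 278792), (278792, 280704),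 (280704, 282648), (282648, 294920), (294920, 295044), (295044, 295424), (295424, 303113), (303113, 303624), (303624, 524356), (524356, 524800), (524800, 525344), (525344, 526416), (526416, 528416), (528416, 1048576)]

theorem chunks : ∀ e ∈ rngs, chunk dat 20 e.1 e.2 = true := by
  unfold rngs
  simp only [List.forall_mem_cons]
  exact ⟨ck0, ck1, ck2, ck3, ck4, ck5, ck6, ck7, ck8, ck9, ck10, ck11, ck12, ck13, ck14, ck15, ck16, ck17, ck18, ck19, ck20, ck21, ck22, ck23, ck24, ck25, ck26, ck27, ck28, ck29, ck30, ck31, ck32, ck33, ck34, ck35, ck36, ck37, ck38, ck39, ck40, ck41, ck42, ck43, ck44, ck45, ck46, ck47, ck48, ck49, ck50, ck51, ck52, ck53, ck54, ck55, ck56, ck57, ck58, ck59, ck60, ck61, ck62, ck63, ck64, ck65, ck66, ck67, ck68, ck69, ck70, ck71, ck72, ck73, ck74, ck75, ck76, ck77, ck78, ck79, ck80, ck81, ck82, ck83, ck84, ck85, ck86, ck87, ck88, ck89, ck90, ck91, ck92, ck93, ck94, ck95, ck96, ck97, ck98, ck99, ck100, ck101, ck102, ck103,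 ck104, ck105, ck106, ck107, ck108, ck109, ck110, ck111, ck112, ck113, ck114, ck115, ck116, ck117, ck118, ck119, fun _ h => absurd h List.not_mem_nil⟩

theorem hx (x : ℕ → ℝ) (hx : ∀ i, x i = 0 ∨ x i = 1) (he : ∀ e ∈ eds, x e.1 * x e.2 = 0) :
    sA al x + sB be (fun i j => x i * x j) + sT ta (fun i j k => x i * x j * x k) ≤
      ((226707 : ℤ) : ℝ) := by
  have h := chk_sound dat ok 20 rngs (by decide +kernel) chunks ord (by decide +kernel) eds
    (by decide +kernel) x hx he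
  have h2 : ((dat.Γ : ℕ) : ℝ) = ((226707 : ℤ) : ℝ) := by norm_num [dat]
  rw [h2] at h
  exact h

end Dadc30.V55
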