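import Pool.Agent.Lib.MP_dadc30_coR.V55.Cls

/-!
# The pairs, the linear coefficients and the edges
-/

set_option autoImplicit false
set_option maxRecDepth 1000000

namespace Dadc30.V55

open Dadc30.Pk Dadc30.Rec

/-- the sums of the coefficients of the pairs with the same distance -/
def VL : List (ℕ × ℤ) := [(160, 46398), (481, -65682), (672, 83052), (798, -22428), (802, -53028), (928, 41412), (991, -14976), (993, 61596), (1119, 55776), (1121, -81168), (1184, 40320), (1245, -9384), (1310, -70704), (1373, -32730), (1440, -19008), (1503, 7224), (1566, 128172), (1692, 24108), (1757, -22236), (1820, -39498), (1822, -21708), (1883, -67404), (1948, -264264), (2267, -553356), (2330, 305340), (2332, 80976), (2586, -205272), (2649, -10626), (2968, -31230), (3096, 35898)]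

theorem hB' : (grp 100000 12 (ky2' NN be)).filter (fun e => !(Nat.beq e.1 416)) = VL := by
  decide +kernel

theorem hB : (grp 100000 12 (ky2 PL be)).filter (fun e => !(Nat.beq e.1 416)) = VL := by
  rw [ky2_eq hN hI2]; exact hB'

theorem hLp : okP PL = true := by decide +kernel

theorem hA : (al.map fun e => e.2).sum = 876692 := by decide +kernel

theorem hE : (eds.all fun e => Nat.beq (kd (gp PL e.1) (gp PL e.2)) 416) = true := by
  decide +kernel

theorem h0 : (0, 0, 0, 0) ∈ PL := by decide +kernel

end Dadc30.V55
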