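import Pool.Agent.Lib.MP_dadc30_coR.V55.All
import Pool.Agent.Lib.MP_dadc30_coR.V55.Grp2
import Pool.Agent.Lib.MP_dadc30_coR.D.Inv

/-!
# The bound
-/

set_option autoImplicit false
set_option maxRecDepth 1000000

namespace Dadc30.V55

open Dadc30.Pk Dadc30.Rec

theorem hVT : grp 1000 6 ((toV (toQ D.LT)).filter fun e => !(Nat.beq e.1 416)) = VL := by
  decide +kernel

theorem hV (g : ℕ → ℝ) :
    sg g ((grp 100000 12 (ky2 PL be)).filter fun e => !(Nat.beq e.1 416)) =
      sg g ((toV (toQ D.LT)).filter fun e => !(Nat.beq e.1 416)) := by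
  rw [hB, ← hVT, sg_grp]

theorem hY : D.v0 + ((toQ D.LT).map fun e => e.2.1).sum = 990438 := by decide +kernel

/-- `m_1(ℝ²) ≤ 0.24433` -/
theorem m1C_le : m1C ≤ (24433 : ℤ) / (100000 : ℤ) :=
  bound_of_data PL al be ta eds 226707 876692 (grp 100000 12 (ky2 PL be)) 100000 12 100000 15
    h0 hLp hA rfl hT hE hx D.v0 D.K D.LT D.S148 D.hL D.hT D.inv600 hV
    24433 100000 990438 (by decide) (by decide) hY (by decide) (by decide +kernel)
    (by decide +kernel) (by decide +kernel)

end Dadc30.V55
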