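import Pool.Agent.Lib.MP_dadc30_coR.V55.Lst

/-!
# The class sums of the triples vanish (generated)
-/

set_option autoImplicit false
set_option maxRecDepth 1000000

namespace Dadc30.V55

open Dadc30.Pk Dadc30.Rec

theorem hI3 : okI3 55 ta = true := by decide +kernel

theorem hI2 : okI2 55 be = true := by decide +kernel

theorem hT' : grp 100000 15 (ky3' NN ta) = [] := by decide +kernel

theorem hT : grp 100000 15 (ky3 PL ta) = [] := by rw [ky3_eq hN hI3]; exact hT'

end Dadc30.V55
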